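import Pool.Agent.TH107.MV.Ext
import Pool.Agent.TH107.RF.Conv

/-!
Embeddings of group rings in division rings, for extensions of subgroups of Artin groups by amenable
locally indicable groups.
-/

set_option autoImplicit false

namespace Pool.Agent.Results.MP_973d5d_al.ArtinGroups

universe u

/-- The Artin group of a finite Coxeter matrix; an entry `0` stands for the label infinity, that is,
for no relation. -/
abbrev ArtinGroup {n : ℕ} (M : CoxeterMatrix (Fin n)) : Type :=
  PresentedGroup
    {r : FreeGroup (Fin n) | ∃ i j : Fin n, M.M i j ≠ 0 ∧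
      r = ((List.range (M.M i j)).map
              (fun k => if Even k then FreeGroup.of i else FreeGroup.of j)).prod *
          (((List.range (M.M i j)).map
              (fun k => if Even k then FreeGroup.of j else FreeGroup.of i)).prod)⁻¹}

/-- The generators fall into classes (the values of `κ`) such that two generators of the same class
have label `l` or infinity, where `l` is at least three, and two generators of different classes have
label two or infinity. -/
def ConstantLabel {n : ℕ} (M : CoxeterMatrix (Fin n)) : Prop :=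
  ∃ (κ : Fin n → ℕ) (l : ℕ), 3 ≤ l ∧
    (∀ i j, i ≠ j → κ i = κ j → M.M i j = 0 ∨ M.M i j = l) ∧
    ∀ i j, κ i ≠ κ j → M.M i j = 0 ∨ M.M i j = 2

/-- Every nontrivial finitely generated subgroup has a surjective homomorphism to the integers. -/
def LocallyIndicable (G : Type) [Group G] : Prop :=
  ∀ H : Subgroup G, H.FG → H ≠ ⊥ → ∃ φ : H →* Multiplicative ℤ, Function.Surjective φ

open Classical in
/-- Amenability, in the form of the condition of Følner. -/
def Amenable (G : Type) [Group G] : Prop :=
  ∀ (S : Finset G) (ε : ℝ), 0 < ε → ∃ T : Finset G, T.Nonempty ∧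
    ∀ s ∈ S, ((T.filter fun t => s * t ∉ T).card : ℝ) ≤ ε * T.card

private theorem surj_of_ne {H : Type} [Group H] (φ : H →* Multiplicative ℤ)
    (h : ∃ k, φ k ≠ 1) : ∃ ψ : H →* Multiplicative ℤ, Function.Surjective ψ := by
  obtain ⟨k, hk⟩ := h
  let f : Additive H →+ ℤ :=
    { toFun := fun x => Multiplicative.toAdd (φ x.toMul)
      map_zero' := by
        change Multiplicative.toAdd (φ 1) = 0
        rw [map_one]
        rfl
      map_add' := by
        intro x y
        change Multiplicative.toAdd (φ (x.toMul * y.toMul)) = _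
        rw [map_mul]
        rfl }
  obtain ⟨d, hd⟩ := Int.subgroup_cyclic f.range
  have hmem : ∀ x : H, ∃ c : ℤ, Multiplicative.toAdd (φ x) = c * d := by
    intro x
    have h1 : f (Additive.ofMul x) ∈ f.range := ⟨_, rfl⟩
    rw [hd, AddSubgroup.mem_closure_singleton] at h1
    obtain ⟨c, hc⟩ := h1
    exact ⟨c, by rw [← smul_eq_mul, hc]; rfl⟩
  have hd0 : d ≠ 0 := by
    rintro rfl
    obtain ⟨c, hc⟩ := hmem k
    rw [mul_zero] at hc
    exact hk hc
  obtain ⟨x0, hx0⟩ : d ∈ f.range := by
    rw [hd]
    exact AddSubgroup.mem_closure_of_mem (Set.mem_singleton d)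
  have hx0' : Multiplicative.toAdd (φ x0.toMul) = d := hx0
  refine ⟨{ toFun := fun x => Multiplicative.ofAdd (Multiplicative.toAdd (φ x) / d)
            map_one' := ?_
            map_mul' := ?_ }, ?_⟩
  · rw [map_one]
    change Multiplicative.ofAdd ((0 : ℤ) / d) = 1
    rw [Int.zero_ediv]
    rfl
  · intro x y
    rw [map_mul]
    obtain ⟨c, hc⟩ := hmem x
    change Multiplicative.ofAdd ((Multiplicative.toAdd (φ x) + Multiplicative.toAdd (φ y)) / d) =
      Multiplicative.ofAdd (Multiplicative.toAdd (φ x) / d + Multiplicative.toAdd (φ y) / d)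
    rw [Int.add_ediv_of_dvd_left ⟨c, by rw [hc, mul_comm]⟩]
  · intro n
    refine ⟨x0.toMul ^ (Multiplicative.toAdd n), ?_⟩
    change Multiplicative.ofAdd (Multiplicative.toAdd (φ (x0.toMul ^ (Multiplicative.toAdd n))) / d)
      = n
    rw [map_zpow, toAdd_zpow, hx0', smul_eq_mul, Int.mul_ediv_cancel _ hd0]
    rfl

/-- Let `M` be a Coxeter matrix such that no three distinct generators `i, j, k` have `m_ij` and
`m_jk` finite and at least three and `m_ik` finite, and let `π` be the homomorphism from the Artin
group to the Coxeter group, whose kernel is the pure Artin group. Let `G` be a group with a normal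
subgroup `N` such that `G / N` is amenable and locally indicable (for example `N = G`), and let `f`
be an injective homomorphism from `N` to the Artin group, with image in the pure Artin group unless
`M` satisfies `ConstantLabel`. Then `G` is locally indicable, and for every division ring `K` the
group ring `K[G]` embeds in a division ring. -/
theorem result : ∀ (n : ℕ) (M : CoxeterMatrix (Fin n)),
    (∀ i j k : Fin n, i ≠ k → 3 ≤ M.M i j → 3 ≤ M.M j k → M.M i k = 0) →
    ∃ π : ArtinGroup M →* M.Group, (∀ i : Fin n, π (PresentedGroup.of i) = M.simple i) ∧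
      ∀ (G : Type) [Group G] (N : Subgroup G) [N.Normal],
        Amenable (G ⧸ N) → LocallyIndicable (G ⧸ N) →
        ∀ f : N →* ArtinGroup M, Function.Injective f →
          ((∀ x, π (f x) = 1) ∨ ConstantLabel M) →
          LocallyIndicable G ∧
          ∀ (K : Type u) [DivisionRing K], ∃ (D : Type u) (_ : DivisionRing D)
            (φ : MonoidAlgebra K G →+* D), Function.Injective φ := by
  intro n M hR
  have key : ∀ R : Set (FreeGroup (Fin n)), R = Pool.Agent.TH107.RF.rels M →
      ∃ π : PresentedGroup R →* M.Group, (∀ i : Fin n, π (PresentedGroup.of i) = M.simple i) ∧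
      ∀ (G : Type) [Group G] (N : Subgroup G) [N.Normal],
        Amenable (G ⧸ N) → LocallyIndicable (G ⧸ N) →
        ∀ f : N →* PresentedGroup R, Function.Injective f →
          ((∀ x, π (f x) = 1) ∨ ConstantLabel M) →
          LocallyIndicable G ∧
          ∀ (K : Type u) [DivisionRing K], ∃ (D : Type u) (_ : DivisionRing D)
            (φ : MonoidAlgebra K G →+* D), Function.Injective φ := by
    rintro R rfl
    refine ⟨Pool.Agent.TH107.RF.toCox M, fun i => Pool.Agent.TH107.RF.toCox_sg M i, ?_⟩
    intro G _ N _ hA hL f hf hor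
    have hNt : Pool.Agent.TH107.MV.STow N := by
      rcases hor with h1 | ⟨κ, l, hl, hin, hout⟩
      · exact (Pool.Agent.TH107.MV.stow_pure (M := M) hR).of_injective
          (f.codRestrict (Pool.Agent.TH107.RF.toCox M).ker h1)
          (fun a b hab => hf (congrArg Subtype.val hab))
      · exact (Pool.Agent.TH107.MV.stow_cl (M := M) hl hin hout hR).of_injective f hf
    have hLI : Pool.Agent.TH107.RF.LI (G ⧸ N) := by
      intro H hH hne
      obtain ⟨φ, hφ⟩ := hL H hH hne
      obtain ⟨k, hk⟩ := hφ (Multiplicative.ofAdd 1)
      refine ⟨φ, k, ?_⟩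
      rw [hk]
      intro h
      have h1 : (1 : ℤ) = 0 := h
      omega
    have hF : HJI.Fol.Fol (G ⧸ N) := hA
    refine ⟨?_, ?_⟩
    · intro H hH hne
      obtain ⟨φ, hφ⟩ := Pool.Agent.TH107.MV.li_of_ext N hNt hLI hF H hH hne
      exact surj_of_ne φ hφ
    · intro K _
      exact Pool.Agent.TH107.MV.emb_ext N hNt hLI hF
  exact key _ (Pool.Agent.TH107.RF.rels_eq M)

end Pool.Agent.Results.MP_973d5d_al.ArtinGroups
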